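import Pool.Agent.Zk71.DR.GenD

/-! The uniform law. -/

set_option autoImplicit false
set_option linter.unusedSectionVars false

open scoped BigOperators Topology ENNReal
open MeasureTheory Filter

namespace Pool.Agent.Zk71.DR

open Pool.Agent.Zk11.QD

variable {d : ℕ}

/-- the uniform law on `[-c, c]` -/
noncomputable def unif (c : ℝ) : Measure ℝ :=
  ENNReal.ofReal (1 / (2 * c)) • volume.restrict (Set.Icc (-c) c)

theorem unif_prob (c : ℝ) (hc : 0 < c) : IsProbabilityMeasure (unif c) := by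
  refine ⟨?_⟩
  unfold unif
  rw [Measure.smul_apply, Measure.restrict_apply MeasurableSet.univ, Set.univ_inter,
    Real.volume_Icc, smul_eq_mul, ← ENNReal.ofReal_mul (by positivity)]
  have : 1 / (2 * c) * (c - -c) = 1 := by
    field_simp
    ring
  rw [this, ENNReal.ofReal_one]

theorem unif_bdd (c : ℝ) : ∀ᵐ s ∂(unif c), |s| ≤ c := by
  have h : ∀ᵐ s ∂(volume.restrict (Set.Icc (-c) c)), |s| ≤ c := by
    filter_upwards [ae_restrict_mem measurableSet_Icc] with s hs
    exact abs_le.2 hs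
  exact Measure.ae_smul_measure h _

theorem unif_mean (c : ℝ) (hc : 0 < c) : ∫ s, s ∂(unif c) = 0 := by
  unfold unif
  rw [integral_smul_measure, integral_Icc_eq_integral_Ioc,
    ← intervalIntegral.integral_of_le (by linarith), integral_id]
  simp

theorem unif_var : (1 / 3 : ℝ) = ∫ s, (s - ∫ t, t ∂(unif 1)) ^ 2 ∂(unif 1) := by
  rw [unif_mean 1 one_pos]
  simp only [sub_zero]
  unfold unif
  rw [integral_smul_measure, integral_Icc_eq_integral_Ioc,
    ← intervalIntegral.integral_of_le (by norm_num), integral_pow]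
  rw [ENNReal.toReal_ofReal (by norm_num)]
  norm_num

/-- the uniform law on `[-c, c]` is the image of that on `[-1, 1]` -/
theorem unif_scale (c : ℝ) (hc : 0 < c) : (unif c).map (fun s => s / c) = unif 1 := by
  have hm : Measurable fun s : ℝ => s / c := by fun_prop
  unfold unif
  rw [Measure.map_smul]
  have h1 : (volume.restrict (Set.Icc (-c) c)).map (fun s : ℝ => s / c) =
      ENNReal.ofReal c • volume.restrict (Set.Icc (-1) 1) := by
    have h2 : Set.Icc (-c) c = (fun s : ℝ => s / c) ⁻¹' Set.Icc (-1) 1 := by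
      ext s
      simp only [Set.mem_Icc, Set.mem_preimage]
      rw [le_div_iff₀ hc, div_le_iff₀ hc]
      constructor
      · rintro ⟨h3, h4⟩
        constructor <;> linarith
      · rintro ⟨h3, h4⟩
        constructor <;> linarith
    rw [h2, ← Measure.restrict_map hm measurableSet_Icc]
    have h3 : (volume : Measure ℝ).map (fun s : ℝ => s / c) = ENNReal.ofReal c • volume := by
      have h4 : (fun s : ℝ => s / c) = fun s => c⁻¹ * s := by
        funext s
        rw [div_eq_mul_inv, mul_comm]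
      rw [h4, Real.map_volume_mul_left (inv_ne_zero hc.ne'), inv_inv, abs_of_pos hc]
    rw [h3, Measure.restrict_smul]
  rw [h1, smul_smul, ← ENNReal.ofReal_mul (by positivity)]
  congr 2
  field_simp

/-- **The Drude formula** for the uniform law. -/
theorem drude_unif (hd : 3 ≤ d) (E1 E2 : ℝ) (hE1 : 0 < E1) (hE2 : E2 < 4 * d)
    (κ : ℝ) (hκ0 : 0 < κ) (hκ1 : κ < 1 / 5) (ε : ℝ) (hε : 0 < ε) :
    ∃ δ : ℝ, 0 < δ ∧ ∀ E : ℝ, E1 ≤ E → E ≤ E2 →
      ∀ c η : ℝ, 0 < c → c < δ → c ^ (2 + κ) ≤ η → η ≤ δ * c ^ 2 →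
      ∀ G : (Zd d → ℝ) → Zd d → ℂ,
        (∀ᵐ ω ∂(PZ d (unif c)), IsG 1 ω ((E : ℂ) + η * Complex.I) (G ω)) → ∀ j : Fin d,
        Summable (fun y : Zd d => (y j : ℝ) ^ 2 * ∫ ω, ‖G ω y‖ ^ 2 ∂(PZ d (unif c))) ∧
        |c ^ 2 * η ^ 2 * ∑' y : Zd d, (y j : ℝ) ^ 2 * ∫ ω, ‖G ω y‖ ^ 2 ∂(PZ d (unif c)) -
          3 * (h0 d E).im / (2 * (g0 d E).im)| ≤ ε := by
  obtain ⟨δ, hδ, h⟩ := drude_gen hd E1 E2 hE1 hE2 1 (1 / 3) (by norm_num) κ hκ0 hκ1 ε hε
  refine ⟨δ, hδ, ?_⟩
  intro E hEa hEb c η hc0 hc1 hη0 hη1 G hG j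
  have hcne : c ≠ 0 := hc0.ne'
  have hp1 := unif_prob 1 one_pos
  have hpc := unif_prob c hc0
  have hmap1 : (unif c).map (af c 0 hcne) = unif 1 := by
    rw [← unif_scale c hc0]
    congr 1
    funext s
    change (s - 0) / c = s / c
    rw [sub_zero]
  have hmp : IsProbabilityMeasure ((unif c).map (af c 0 hcne)) := by
    rw [hmap1]
    exact hp1
  have hmap := af1_map (d := d) (unif c) c 0 hcne
  rw [hmap1] at hmap
  have hG' : ∀ᵐ ω ∂(PZ d (unif 1)), IsG c ω ((E : ℂ) + η * Complex.I)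
      (G ((af1 d c 0 hcne).symm ω)) := by
    rw [← hmap, (af1 d c 0 hcne).measurableEmbedding.ae_map_iff]
    refine hG.mono fun ω hω => ?_
    rw [MeasurableEquiv.symm_apply_apply]
    have h1 := (isG_af 1 c 0 hcne ω _ _).1 hω
    rw [mul_zero, Complex.ofReal_zero, sub_zero, one_mul] at h1
    exact h1
  have hint : ∀ y, ∫ ω, ‖G ((af1 d c 0 hcne).symm ω) y‖ ^ 2 ∂(PZ d (unif 1)) =
      ∫ ω, ‖G ω y‖ ^ 2 ∂(PZ d (unif c)) := by
    intro y
    rw [← hmap, integral_map_equiv]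
    simp only [MeasurableEquiv.symm_apply_apply]
  have hres := h (unif 1) (unif_bdd 1) (1 / 3) unif_var le_rfl E hEa hEb c η hc0 hc1 hη0 hη1
    (fun ω => G ((af1 d c 0 hcne).symm ω)) hG' j
  simp only [hint] at hres
  refine ⟨hres.1, ?_⟩
  have hg := g0_pos hd E (by linarith) (by linarith)
  have e1 : 3 * (h0 d E).im / (2 * (g0 d E).im) = (h0 d E).im / (2 * (g0 d E).im * (1 / 3)) := by
    field_simp
  rw [e1]
  exact hres.2

end Pool.Agent.Zk71.DR
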