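import Pool.Agent.Zk11.QD.Zp

/-! Second moments from characteristic functions. -/

set_option autoImplicit false
set_option linter.unusedSectionVars false

open scoped BigOperators Topology
open MeasureTheory Filter

namespace Pool.Agent.Zk71.DR

open Pool.Agent.Zk11.QD

variable {d : ℕ}

/-- `2 - 2 cos t` -/
noncomputable def vc (t : ℝ) : ℝ := 2 - 2 * Real.cos t

theorem vc_nonneg (t : ℝ) : 0 ≤ vc t := by
  unfold vc
  have := Real.cos_le_one t
  linarith

theorem vc_le_four (t : ℝ) : vc t ≤ 4 := by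
  unfold vc
  have := Real.neg_one_le_cos t
  linarith

theorem vc_le_sq (t : ℝ) : vc t ≤ t ^ 2 := by
  unfold vc
  have := Real.one_sub_sq_div_two_le_cos (x := t)
  linarith

theorem vc_sq (t : ℝ) : vc t ^ 2 = 4 * vc t - vc (2 * t) := by
  unfold vc
  rw [Real.cos_two_mul]
  ring

theorem sq_le_vc (t : ℝ) (ht : |t| ≤ 1) : t ^ 2 ≤ vc t + vc t ^ 2 := by
  have h1 := Real.cos_bound ht
  have h2 := (abs_le.1 h1).2
  have h3 : |t| ^ 4 = (t ^ 2) ^ 2 := by
    rw [← sq_abs t]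
    ring
  rw [h3] at h2
  have h4 : 0 ≤ t ^ 2 := sq_nonneg t
  have h5 : t ^ 2 ≤ 1 := by
    rw [← sq_abs]
    exact pow_le_one₀ (abs_nonneg t) ht
  have h6 : t ^ 2 - 5 / 48 * (t ^ 2) ^ 2 ≤ vc t := by
    unfold vc
    linarith
  have h7 : 1 / 2 * t ^ 2 ≤ vc t := by nlinarith
  have h8 : (1 / 2 * t ^ 2) ^ 2 ≤ vc t ^ 2 := pow_le_pow_left₀ (by positivity) h7 2
  nlinarith

theorem sq_le_exp (a s : ℝ) (ha : 0 < a) (hs : 0 ≤ s) : s ^ 2 ≤ 2 / a ^ 2 * Real.exp (a * s) := by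
  have h1 := Real.quadratic_le_exp_of_nonneg (x := a * s) (by positivity)
  have h2 : (a * s) ^ 2 / 2 ≤ Real.exp (a * s) := by
    have : 0 ≤ a * s := by positivity
    linarith
  rw [div_mul_eq_mul_div, le_div_iff₀ (by positivity)]
  calc s ^ 2 * a ^ 2 = 2 * ((a * s) ^ 2 / 2) := by ring
    _ ≤ 2 * Real.exp (a * s) := by linarith

/-- the pointwise bound -/
theorem ptw (a p y : ℝ) (ha : 0 < a) (hp : 0 < p) :
    p ^ 2 * y ^ 2 ≤ vc (p * y) + vc (p * y) ^ 2 +
      p ^ 2 * (2 / a ^ 2 * Real.exp (-(a / p))) * Real.exp (2 * a * |y|) := by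
  have hv := vc_nonneg (p * y)
  rcases le_or_gt |p * y| 1 with h | h
  · have h1 := sq_le_vc (p * y) h
    have h2 : 0 ≤ p ^ 2 * (2 / a ^ 2 * Real.exp (-(a / p))) * Real.exp (2 * a * |y|) := by positivity
    have h3 : p ^ 2 * y ^ 2 = (p * y) ^ 2 := by ring
    linarith
  · have h1 := sq_le_exp a |y| ha (abs_nonneg y)
    rw [sq_abs] at h1
    rw [abs_mul, abs_of_pos hp] at h
    have h2 : Real.exp (a * |y|) ≤ Real.exp (-(a / p)) * Real.exp (2 * a * |y|) := by
      rw [← Real.exp_add]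
      apply Real.exp_le_exp.2
      have h3 : a / p ≤ a * |y| := by
        rw [div_le_iff₀ hp]
        nlinarith
      linarith
    have h4 : y ^ 2 ≤ 2 / a ^ 2 * (Real.exp (-(a / p)) * Real.exp (2 * a * |y|)) :=
      h1.trans (mul_le_mul_of_nonneg_left h2 (by positivity))
    have h5 := mul_le_mul_of_nonneg_left h4 (by positivity : 0 ≤ p ^ 2)
    have h6 : p ^ 2 * (2 / a ^ 2 * (Real.exp (-(a / p)) * Real.exp (2 * a * |y|))) =
      p ^ 2 * (2 / a ^ 2 * Real.exp (-(a / p))) * Real.exp (2 * a * |y|) := by ring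
    nlinarith [sq_nonneg (vc (p * y))]

section
variable (m : Zd d → ℝ) (hm : ∀ y, 0 ≤ m y) (hms : Summable m) (j : Fin d)

include hm hms

theorem vc_summable (p : ℝ) : Summable fun y : Zd d => vc (p * y j) * m y :=
  Summable.of_nonneg_of_le (fun y => mul_nonneg (vc_nonneg _) (hm y))
    (fun y => mul_le_mul_of_nonneg_right (vc_le_four _) (hm y)) (hms.mul_left 4)

theorem vc_sq_sum (p : ℝ) : ∑' y : Zd d, vc (p * y j) ^ 2 * m y =
    4 * ∑' y : Zd d, vc (p * y j) * m y - ∑' y : Zd d, vc (2 * p * y j) * m y := by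
  rw [← tsum_mul_left, ← Summable.tsum_sub ((vc_summable m hm hms j p).mul_left 4)
    (vc_summable m hm hms j (2 * p))]
  refine tsum_congr fun y => ?_
  rw [vc_sq]
  have : 2 * (p * (y j : ℝ)) = 2 * p * y j := by ring
  rw [this]
  ring

/-- the second moment -/
theorem sec_mom (a K : ℝ) (ha : 0 < a)
    (hK : ∀ F : Finset (Zd d), ∑ y ∈ F, Real.exp (2 * a * |(y j : ℝ)|) * m y ≤ K)
    (p : ℝ) (hp : 0 < p) :
    Summable (fun y : Zd d => (y j : ℝ) ^ 2 * m y) ∧
    ∑' y : Zd d, vc (p * y j) * m y ≤ p ^ 2 * ∑' y : Zd d, (y j : ℝ) ^ 2 * m y ∧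
    p ^ 2 * ∑' y : Zd d, (y j : ℝ) ^ 2 * m y ≤ 5 * ∑' y : Zd d, vc (p * y j) * m y -
      ∑' y : Zd d, vc (2 * p * y j) * m y +
      p ^ 2 * (2 / a ^ 2 * Real.exp (-(a / p))) * K := by
  have hE : Summable fun y : Zd d => Real.exp (2 * a * |(y j : ℝ)|) * m y :=
    summable_of_sum_le (fun y => mul_nonneg (Real.exp_pos _).le (hm y)) hK
  have hEK : ∑' y : Zd d, Real.exp (2 * a * |(y j : ℝ)|) * m y ≤ K :=
    hE.tsum_le_of_sum_le hK
  have hv := vc_summable m hm hms j p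
  have hv2 : Summable fun y : Zd d => vc (p * y j) ^ 2 * m y := by
    refine Summable.of_nonneg_of_le (fun y => mul_nonneg (sq_nonneg _) (hm y))
      (fun y => mul_le_mul_of_nonneg_right (?_ : vc (p * y j) ^ 2 ≤ 16) (hm y)) (hms.mul_left 16)
    have h1 := vc_le_four (p * y j)
    have h2 := vc_nonneg (p * y j)
    nlinarith
  set c := p ^ 2 * (2 / a ^ 2 * Real.exp (-(a / p))) with hc
  have hc0 : 0 ≤ c := by positivity
  have hpt : ∀ y : Zd d, p ^ 2 * ((y j : ℝ) ^ 2 * m y) ≤ vc (p * y j) * m y +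
      vc (p * y j) ^ 2 * m y + c * (Real.exp (2 * a * |(y j : ℝ)|) * m y) := by
    intro y
    have h1 := mul_le_mul_of_nonneg_right (ptw a p (y j : ℝ) ha hp) (hm y)
    rw [← hc] at h1
    calc p ^ 2 * ((y j : ℝ) ^ 2 * m y) = p ^ 2 * (y j : ℝ) ^ 2 * m y := by ring
      _ ≤ _ := h1
      _ = _ := by ring
  have hS : Summable fun y : Zd d => vc (p * y j) * m y +
      vc (p * y j) ^ 2 * m y + c * (Real.exp (2 * a * |(y j : ℝ)|) * m y) :=
    (hv.add hv2).add (hE.mul_left c)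
  have hps : Summable fun y : Zd d => p ^ 2 * ((y j : ℝ) ^ 2 * m y) :=
    Summable.of_nonneg_of_le (fun y => mul_nonneg (sq_nonneg _) (mul_nonneg (sq_nonneg _) (hm y)))
      hpt hS
  have hys : Summable fun y : Zd d => (y j : ℝ) ^ 2 * m y := by
    refine (summable_mul_left_iff ?_).1 hps
    positivity
  refine ⟨hys, ?_, ?_⟩
  · rw [← tsum_mul_left]
    refine Summable.tsum_le_tsum (fun y => ?_) hv hps
    have h1 := mul_le_mul_of_nonneg_right (vc_le_sq (p * y j)) (hm y)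
    refine h1.trans (le_of_eq ?_)
    ring
  · rw [← tsum_mul_left]
    have h2 := Summable.tsum_le_tsum hpt hps hS
    refine h2.trans ?_
    rw [Summable.tsum_add (hv.add hv2) (hE.mul_left c), Summable.tsum_add hv hv2,
      vc_sq_sum m hm hms j p, tsum_mul_left]
    have h3 := mul_le_mul_of_nonneg_left hEK hc0
    linarith

/-- real part -/
theorem vc_re (p : ℝ) : ((∑' y : Zd d, vc (p * y j) * m y : ℝ) : ℝ) =
    2 * (∑' y : Zd d, ((m y : ℝ) : ℂ) -
      ∑' y : Zd d, Complex.exp (((p * y j : ℝ) : ℂ) * Complex.I) * ((m y : ℝ) : ℂ)).re := by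
  have hs1 : Summable fun y : Zd d => ((m y : ℝ) : ℂ) := by
    rw [← summable_norm_iff]
    refine hms.congr fun y => ?_
    rw [Complex.norm_real, Real.norm_eq_abs, abs_of_nonneg (hm y)]
  have hs2 : Summable fun y : Zd d =>
      Complex.exp (((p * y j : ℝ) : ℂ) * Complex.I) * ((m y : ℝ) : ℂ) := by
    rw [← summable_norm_iff]
    refine hms.congr fun y => ?_
    rw [norm_mul, Complex.norm_exp_ofReal_mul_I, one_mul, Complex.norm_real, Real.norm_eq_abs,
      abs_of_nonneg (hm y)]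
  rw [← Summable.tsum_sub hs1 hs2, Complex.re_tsum (hs1.sub hs2), ← tsum_mul_left]
  refine tsum_congr fun y => ?_
  rw [Complex.sub_re, Complex.re_mul_ofReal, Complex.exp_ofReal_mul_I_re, Complex.ofReal_re]
  unfold vc
  ring

end

end Pool.Agent.Zk71.DR
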