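import Pool.Agent.Zk11.QD.Zp

/-! Exponential decay of the Green function at distance `1 / η` (Combes and Thomas). -/

set_option autoImplicit false
set_option linter.unusedSectionVars false

open scoped BigOperators Topology
open MeasureTheory Filter

namespace Pool.Agent.Zk71.DR

open Pool.Agent.Zk11.QD
open Pool.Agent.W788.MFP.Four (T e NN adj adj_neg e_comm e_add_left e_add e_zero e_neg e_neg_left
  e_normSq sum_e NN_pos card_T e_single)

variable {d : ℕ}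

/-- the distance to the origin in direction `j` -/
def ds {L : ℕ} (j : Fin d) (x : T d L) : ℕ := (x j).valMinAbs.natAbs

theorem ds_add_le {L : ℕ} [NeZero L] (j : Fin d) (x v : T d L) : ds j (x + v) ≤ ds j x + ds j v := by
  unfold ds
  have h1 := ZMod.natAbs_valMinAbs_add_le (x j) (v j)
  refine h1.trans (Int.natAbs_add_le _ _)

theorem ds_neg {L : ℕ} [NeZero L] (j : Fin d) (v : T d L) : ds j (-v) = ds j v := by
  unfold ds
  rw [Pi.neg_apply, ZMod.natAbs_valMinAbs_neg]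

theorem ds_single {L : ℕ} [NeZero L] (i j : Fin d) : ds j (Pi.single i 1 : T d L) ≤ 1 := by
  unfold ds
  by_cases h : j = i
  · subst h
    rw [Pi.single_eq_same, ZMod.valMinAbs_natAbs_eq_min]
    refine (min_le_left _ _).trans ?_
    rcases Nat.lt_or_ge 1 L with h1 | h1
    · have : Fact (1 < L) := ⟨h1⟩
      rw [ZMod.val_one]
    · have h2 := ZMod.val_lt (1 : ZMod L)
      omega
  · rw [Pi.single_eq_of_ne h]
    simp

theorem ds_up {L : ℕ} [NeZero L] (i j : Fin d) (x : T d L) :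
    ds j (x + Pi.single i 1) ≤ ds j x + 1 ∧ ds j x ≤ ds j (x + Pi.single i 1) + 1 := by
  have h1 := ds_single (L := L) i j
  constructor
  · exact (ds_add_le j x _).trans (by omega)
  · have h2 := ds_add_le j (x + Pi.single i 1) (-Pi.single i 1)
    rw [add_neg_cancel_right, ds_neg] at h2
    omega

theorem ds_dn {L : ℕ} [NeZero L] (i j : Fin d) (x : T d L) :
    ds j (x - Pi.single i 1) ≤ ds j x + 1 ∧ ds j x ≤ ds j (x - Pi.single i 1) + 1 := by
  have h1 := ds_up i j (x - Pi.single i 1)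
  rw [sub_add_cancel] at h1
  exact ⟨h1.2, h1.1⟩

/-- the weight -/
noncomputable def wt {L : ℕ} (a : ℝ) (j : Fin d) (x : T d L) : ℝ := Real.exp (a * ds j x)

theorem wt_pos {L : ℕ} (a : ℝ) (j : Fin d) (x : T d L) : 0 < wt a j x := Real.exp_pos _

theorem exp_small (a : ℝ) (ha0 : 0 ≤ a) (ha1 : a ≤ 1) : Real.exp a - 1 ≤ 2 * a := by
  have h1 := Real.abs_exp_sub_one_le (x := a) (by rwa [abs_of_nonneg ha0])
  rw [abs_of_nonneg ha0] at h1
  exact (le_abs_self _).trans h1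

theorem wt_diff {L : ℕ} (a : ℝ) (ha0 : 0 ≤ a) (ha1 : a ≤ 1) (j : Fin d) (x y : T d L)
    (h1 : ds j y ≤ ds j x + 1) (h2 : ds j x ≤ ds j y + 1) :
    |wt a j y - wt a j x| ≤ 2 * a * wt a j y := by
  have h1' : (ds j y : ℝ) ≤ ds j x + 1 := by exact_mod_cast h1
  have h2' : (ds j x : ℝ) ≤ ds j y + 1 := by exact_mod_cast h2
  have hy := wt_pos a j y
  have hx := wt_pos a j x
  have e0 := exp_small a ha0 ha1
  have a1 : wt a j x ≤ Real.exp a * wt a j y := by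
    unfold wt
    rw [← Real.exp_add]
    apply Real.exp_le_exp.2
    nlinarith
  have a2 : wt a j y ≤ Real.exp a * wt a j x := by
    unfold wt
    rw [← Real.exp_add]
    apply Real.exp_le_exp.2
    nlinarith
  have e1 : 1 ≤ Real.exp a := Real.one_le_exp ha0
  rw [abs_le]
  constructor
  · nlinarith
  · -- wt y - wt x ≤ 2 a wt y ; wt x ≥ exp(-a) wt y
    have h3 : Real.exp (-a) * wt a j y ≤ wt a j x := by
      have := mul_le_mul_of_nonneg_left a2 (Real.exp_pos (-a)).le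
      rw [← mul_assoc, ← Real.exp_add, neg_add_cancel, Real.exp_zero, one_mul] at this
      exact this
    have h4 : 1 - a ≤ Real.exp (-a) := by
      have := Real.add_one_le_exp (-a)
      linarith
    nlinarith

theorem ct_torus {L : ℕ} [NeZero L] (z : ℂ) (hz : 0 < z.im) (σ : ℝ) (V : T d L → ℝ) (j : Fin d)
    (a : ℝ) (ha0 : 0 ≤ a) (ha1 : a ≤ 1) (ha : 8 * d * a ≤ z.im) :
    ∑ x, wt a j x ^ 2 * ‖uu z σ V x‖ ^ 2 ≤ 4 / z.im ^ 2 := by
  classical
  set u := uu z σ V with hu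
  set v : T d L → ℂ := fun x => ((wt a j x : ℝ) : ℂ) * u x with hv
  set S := ∑ x, ‖v x‖ ^ 2 with hS
  have hS0 : 0 ≤ S := Finset.sum_nonneg fun _ _ => by positivity
  have hSe : S = ∑ x, wt a j x ^ 2 * ‖u x‖ ^ 2 := by
    rw [hS]
    refine Finset.sum_congr rfl fun x _ => ?_
    simp only [hv]
    rw [norm_mul, Complex.norm_real, Real.norm_eq_abs, abs_of_pos (wt_pos a j x), mul_pow]
  rw [← hSe]
  set R : T d L → ℂ := fun x => ∑ i : Fin d,
    ((((wt a j (x + Pi.single i 1) - wt a j x : ℝ) : ℂ)) * u (x + Pi.single i 1) +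
      (((wt a j (x - Pi.single i 1) - wt a j x : ℝ) : ℂ)) * u (x - Pi.single i 1)) with hR
  have hHv : ∀ x, Hz z σ V v x = (if x = 0 then 1 else 0) - R x := by
    intro x
    have h1 := uu_eq z hz σ V x
    have h2 : ((wt a j x : ℝ) : ℂ) * Hz z σ V u x = if x = 0 then 1 else 0 := by
      rw [hu, h1]
      by_cases hx : x = 0
      · rw [if_pos hx, hx]
        simp [wt, ds]
      · rw [if_neg hx, mul_zero]
    rw [← h2]
    unfold Hz
    simp only [hv, hR]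
    have e1 : ∑ i : Fin d, ((((wt a j (x + Pi.single i 1) - wt a j x : ℝ) : ℂ)) *
        u (x + Pi.single i 1) + (((wt a j (x - Pi.single i 1) - wt a j x : ℝ) : ℂ)) *
        u (x - Pi.single i 1)) = ∑ i : Fin d, (((wt a j (x + Pi.single i 1) : ℝ) : ℂ) *
        u (x + Pi.single i 1) + ((wt a j (x - Pi.single i 1) : ℝ) : ℂ) * u (x - Pi.single i 1)) -
        ((wt a j x : ℝ) : ℂ) * ∑ i : Fin d, (u (x + Pi.single i 1) + u (x - Pi.single i 1)) := by
      rw [Finset.mul_sum, ← Finset.sum_sub_distrib]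
      refine Finset.sum_congr rfl fun i _ => ?_
      push_cast
      ring
    rw [e1]
    ring
  have hRx : ∀ x, ‖R x‖ ^ 2 ≤ 2 * d * (2 * a) ^ 2 * ∑ i : Fin d,
      (‖v (x + Pi.single i 1)‖ ^ 2 + ‖v (x - Pi.single i 1)‖ ^ 2) := by
    intro x
    have b1 : ∀ y : T d L, ds j y ≤ ds j x + 1 → ds j x ≤ ds j y + 1 →
        ‖(((wt a j y - wt a j x : ℝ) : ℂ)) * u y‖ ≤ 2 * a * ‖v y‖ := by
      intro y hy1 hy2
      have h3 := wt_diff a ha0 ha1 j x y hy1 hy2
      simp only [hv]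
      rw [norm_mul, norm_mul, Complex.norm_real, Complex.norm_real, Real.norm_eq_abs,
        Real.norm_eq_abs, abs_of_pos (wt_pos a j y), ← mul_assoc]
      exact mul_le_mul_of_nonneg_right h3 (norm_nonneg _)
    have b2 : ‖R x‖ ≤ ∑ i : Fin d, (2 * a * (‖v (x + Pi.single i 1)‖ + ‖v (x - Pi.single i 1)‖)) := by
      refine (norm_sum_le _ _).trans (Finset.sum_le_sum fun i _ => ?_)
      refine (norm_add_le _ _).trans ?_
      have c1 := b1 (x + Pi.single i 1) (ds_up i j x).1 (ds_up i j x).2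
      have c2 := b1 (x - Pi.single i 1) (ds_dn i j x).1 (ds_dn i j x).2
      linarith
    refine (pow_le_pow_left₀ (norm_nonneg _) b2 2).trans ?_
    refine (sq_sum_le_card_mul_sum_sq).trans ?_
    rw [Finset.card_univ, Fintype.card_fin]
    have e2 : 2 * (d : ℝ) * (2 * a) ^ 2 * ∑ i : Fin d,
        (‖v (x + Pi.single i 1)‖ ^ 2 + ‖v (x - Pi.single i 1)‖ ^ 2) =
        (d : ℝ) * ∑ i : Fin d, (2 * (2 * a) ^ 2 * (‖v (x + Pi.single i 1)‖ ^ 2 +
          ‖v (x - Pi.single i 1)‖ ^ 2)) := by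
      rw [← Finset.mul_sum]
      ring
    rw [e2]
    refine mul_le_mul_of_nonneg_left (Finset.sum_le_sum fun i _ => ?_) (Nat.cast_nonneg d)
    have e3 : (2 * a * (‖v (x + Pi.single i 1)‖ + ‖v (x - Pi.single i 1)‖)) ^ 2 =
        (2 * a) ^ 2 * (‖v (x + Pi.single i 1)‖ + ‖v (x - Pi.single i 1)‖) ^ 2 := by ring
    rw [e3]
    have h6 : 0 ≤ (2 * a) ^ 2 := by positivity
    nlinarith [sq_nonneg (‖v (x + Pi.single i 1)‖ - ‖v (x - Pi.single i 1)‖),
      mul_nonneg h6 (sq_nonneg (‖v (x + Pi.single i 1)‖ - ‖v (x - Pi.single i 1)‖))]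
  have hRs : ∑ x, ‖R x‖ ^ 2 ≤ (4 * d * a) ^ 2 * S := by
    refine (Finset.sum_le_sum fun x _ => hRx x).trans ?_
    rw [← Finset.mul_sum, Finset.sum_comm]
    have h3 : ∀ i : Fin d, ∑ x : T d L, (‖v (x + Pi.single i 1)‖ ^ 2 +
        ‖v (x - Pi.single i 1)‖ ^ 2) = 2 * S := by
      intro i
      rw [Finset.sum_add_distrib]
      have h4 : ∑ x : T d L, ‖v (x + Pi.single i 1)‖ ^ 2 = S :=
        Equiv.sum_comp (Equiv.addRight (Pi.single i 1 : T d L)) fun x => ‖v x‖ ^ 2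
      have h5 : ∑ x : T d L, ‖v (x - Pi.single i 1)‖ ^ 2 = S :=
        Equiv.sum_comp (Equiv.subRight (Pi.single i 1 : T d L)) fun x => ‖v x‖ ^ 2
      rw [h4, h5]
      ring
    simp only [h3]
    rw [Finset.sum_const, Finset.card_univ, Fintype.card_fin, nsmul_eq_mul]
    refine le_of_eq ?_
    ring
  have h1 := Hz_coercive hz (σ := σ) V v
  rw [← hS] at h1
  have h2 : ∑ x, ‖Hz z σ V v x‖ ^ 2 ≤ 2 + 2 * ∑ x, ‖R x‖ ^ 2 := by
    have h3 : ∀ x, ‖Hz z σ V v x‖ ^ 2 ≤ 2 * (if x = 0 then 1 else 0) + 2 * ‖R x‖ ^ 2 := by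
      intro x
      rw [hHv]
      have h4 := pow_le_pow_left₀ (norm_nonneg _)
        (norm_sub_le (if x = 0 then (1 : ℂ) else 0) (R x)) 2
      have h5 : ‖(if x = 0 then (1 : ℂ) else 0)‖ ^ 2 = if x = 0 then 1 else 0 := by
        split_ifs <;> simp
      rw [← h5]
      nlinarith [sq_nonneg (‖(if x = 0 then (1 : ℂ) else 0)‖ - ‖R x‖)]
    refine (Finset.sum_le_sum fun x _ => h3 x).trans ?_
    rw [Finset.sum_add_distrib, ← Finset.mul_sum, ← Finset.mul_sum]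
    simp
  have h3 : (4 * d * a) ^ 2 * S ≤ (z.im / 2) ^ 2 * S := by
    refine mul_le_mul_of_nonneg_right ?_ hS0
    exact pow_le_pow_left₀ (by positivity) (by linarith) 2
  have h4 : z.im ^ 2 * S ≤ 4 := by nlinarith
  rw [le_div_iff₀ (by positivity), mul_comm]
  exact h4

theorem ds_pr {h : ℕ} (j : Fin d) (y : Zd d) (hy : ∀ i, |y i| ≤ h) :
    ds j (pr (2 * h + 1) y) = (y j).natAbs := by
  have h1 := congrFun (lift_pr y hy) j
  unfold lift at h1
  unfold ds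
  rw [h1]

/-- exponential decay for a fixed potential -/
theorem ct_det (lam : ℝ) (ω : Zd d → ℝ) (z : ℂ) (hz : 0 < z.im) (G : Zd d → ℂ)
    (hG : IsG lam ω z G) (j : Fin d) (a : ℝ) (ha0 : 0 ≤ a) (ha1 : a ≤ 1) (ha : 8 * d * a ≤ z.im)
    (F : Finset (Zd d)) :
    ∑ y ∈ F, Real.exp (2 * a * |(y j : ℝ)|) * ‖G y‖ ^ 2 ≤ 4 / z.im ^ 2 := by
  classical
  have h1 : Tendsto (fun h : ℕ => ∑ y ∈ F, Real.exp (2 * a * |(y j : ℝ)|) *
      ‖uu z lam (VL h ω) (pr (2 * h + 1) y)‖ ^ 2) atTop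
      (𝓝 (∑ y ∈ F, Real.exp (2 * a * |(y j : ℝ)|) * ‖G y‖ ^ 2)) :=
    tendsto_finsetSum _ fun y _ => ((pt_lim lam ω z hz G hG y).norm.pow 2).const_mul _
  refine le_of_tendsto h1 ?_
  have h3 : ∀ᶠ h : ℕ in atTop, ∀ y ∈ F, ∀ i, |y i| ≤ h := by
    rw [Filter.eventually_all_finset]
    intro y _
    exact in_box y
  filter_upwards [h3] with h hh
  have h4 : ∑ y ∈ F, Real.exp (2 * a * |(y j : ℝ)|) *
      ‖uu z lam (VL h ω) (pr (2 * h + 1) y)‖ ^ 2 = ∑ x ∈ F.image (pr (2 * h + 1)),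
      wt a j x ^ 2 * ‖uu z lam (VL h ω) x‖ ^ 2 := by
    rw [Finset.sum_image]
    · refine Finset.sum_congr rfl fun y hy => ?_
      congr 1
      unfold wt
      rw [ds_pr j y (hh y hy), ← Real.exp_nat_mul]
      congr 1
      have : ((y j).natAbs : ℝ) = |(y j : ℝ)| := by
        rw [Nat.cast_natAbs, Int.cast_abs]
      rw [this]
      push_cast
      ring
    · intro x hx y hy hxy
      have h5 := congrArg lift hxy
      rwa [lift_pr x (hh x hx), lift_pr y (hh y hy)] at h5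
  rw [h4]
  refine le_trans ?_ (ct_torus z hz lam (VL h ω) j a ha0 ha1 ha)
  exact Finset.sum_le_sum_of_subset_of_nonneg (Finset.subset_univ _)
    (fun _ _ _ => by positivity)

/-- exponential decay of the averages -/
theorem ct_avg (μ : Measure ℝ) [IsProbabilityMeasure μ] (lam : ℝ) (z : ℂ) (hz : 0 < z.im)
    (G : (Zd d → ℝ) → Zd d → ℂ) (hG : ∀ᵐ ω ∂(PZ d μ), IsG lam ω z (G ω)) (j : Fin d) (a : ℝ)
    (ha0 : 0 ≤ a) (ha1 : a ≤ 1) (ha : 8 * d * a ≤ z.im) (F : Finset (Zd d)) :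
    ∑ y ∈ F, Real.exp (2 * a * |(y j : ℝ)|) * ∫ ω, ‖G ω y‖ ^ 2 ∂(PZ d μ) ≤ 4 / z.im ^ 2 := by
  have h0 : ∀ y ∈ F, Integrable (fun ω => Real.exp (2 * a * |(y j : ℝ)|) * ‖G ω y‖ ^ 2) (PZ d μ) :=
    fun y _ => (G_int μ lam z hz G hG y).const_mul _
  have h1 : ∑ y ∈ F, Real.exp (2 * a * |(y j : ℝ)|) * ∫ ω, ‖G ω y‖ ^ 2 ∂(PZ d μ) =
      ∫ ω, ∑ y ∈ F, Real.exp (2 * a * |(y j : ℝ)|) * ‖G ω y‖ ^ 2 ∂(PZ d μ) := by
    rw [integral_finsetSum _ h0]
    exact Finset.sum_congr rfl fun y _ => by rw [integral_const_mul]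
  rw [h1]
  have h2 : ∫ ω, ∑ y ∈ F, Real.exp (2 * a * |(y j : ℝ)|) * ‖G ω y‖ ^ 2 ∂(PZ d μ) ≤
      ∫ _ω, 4 / z.im ^ 2 ∂(PZ d μ) := by
    refine integral_mono_ae (integrable_finsetSum _ h0) (integrable_const _) ?_
    filter_upwards [hG] with ω hω
    exact ct_det lam ω z hz (G ω) hω j a ha0 ha1 ha F
  refine h2.trans (le_of_eq ?_)
  simp

end Pool.Agent.Zk71.DR
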