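import Pool.Agent.Zk71.DR.Quot

/-! Differences of the correlation function along sequences of tori, `κ < 1/5`. -/

set_option autoImplicit false
set_option linter.unusedSectionVars false

open scoped BigOperators Topology ENNReal
open MeasureTheory Filter

namespace Pool.Agent.Zk71.DR

open Pool.Agent.Zk11.QD
open Pool.Agent.W788.MFP.Four (T e NN adj adj_neg e_comm e_add_left e_add e_zero e_neg e_neg_left
  e_normSq sum_e NN_pos card_T e_single)

variable {d : ℕ} {L : ℕ → ℕ} [hL : ∀ n, NeZero (L n)] {z : ℕ → ℂ} {σ τ : ℕ → ℝ} {m : ℕ → ℂ}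
  {p : (n : ℕ) → T d (L n)} {g : ℂ} {H0 C : ℝ} {P : Fin d → ℝ} {r : ℕ → ℝ}

/-- the small exponent -/
noncomputable def th (κ : ℝ) : ℝ := (1 - 5 * κ) / 16

/-- **the limit of the differences along sequences of tori** -/
theorem seq_diff (h : LR L z σ τ m p g H0 C P r) (hC0 : 0 ≤ C) (μ : ℕ → Measure ℝ)
    [hμ : ∀ n, IsProbabilityMeasure (μ n)] (hh : ℕ → ℝ → ℂ)
    (hS : ∀ n, Sit (μ n) (σ n) (m n) C (τ n) (hh n))
    (κ : ℝ) (hκ0 : 0 < κ) (hκ1 : κ < 1 / 5) (hηκ : ∀ n, σ n ^ (2 + κ) ≤ (z n).im)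
    (hr : ∀ n, r n = σ n ^ (κ / 2 + th κ)) (C4 : ℝ)
    (hC4 : 0 ≤ C4)
    (hN4 : ∀ n, N4 d (L n) (z n) (σ n) (m n) ≤ C4 * (1 + Real.log (1 / (z n).im)) ^ 3)
    (u : (n : ℕ) → (T d (L n) → ℝ) → T d (L n) → ℂ) (hum : ∀ n x, Measurable fun V => u n V x)
    (hue : ∀ n V x, Hz (z n) (σ n) V (u n V) x = if x = 0 then 1 else 0) :
    Tendsto (fun n => (((z n).im : ℂ) * ∑ x, e (0 : T d (L n)) x *
      ((∫ V, ‖u n V x‖ ^ 2 ∂(PL (T d (L n)) (μ n)) : ℝ) : ℂ) - ((z n).im : ℂ) * ∑ x, e (p n) x *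
      ((∫ V, ‖u n V x‖ ^ 2 ∂(PL (T d (L n)) (μ n)) : ℝ) : ℂ)) / ((r n ^ 2 : ℝ) : ℂ)) atTop
      (𝓝 ((H0 / (4 * g.im) * ∑ j, P j ^ 2 : ℝ) : ℂ)) := by
  have hmain := h.main
  set θ : ℝ := th κ with hθ
  have hθe : θ = (1 - 5 * κ) / 16 := by rw [hθ]; rfl
  clear_value θ
  have hθ0 : 0 < θ := by rw [hθe]; linarith
  have hθ1 : θ ≤ 1 := by rw [hθe]; linarith
  set ξ : ℝ := 1 - 3 * κ - 4 * θ with hξ
  have hξ0 : 0 < ξ := by rw [hξ, hθe]; linarith
  have hmi : Tendsto (fun n => (m n).im) atTop (𝓝 g.im) :=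
    (Complex.continuous_im.tendsto g).comp h.lh.ml
  have hg := h.lh.gi
  set B : ℝ := 1 + (g.im + 1) + 2 / g.im + C + C4 * (4 / θ) ^ 3 + 1 / θ with hBdef
  have hC4' : 0 ≤ C4 * (4 / θ) ^ 3 := by positivity
  have hθ' : 0 < 1 / θ := by positivity
  have hg' : 0 < 2 / g.im := by positivity
  have hB1 : 1 ≤ B := by rw [hBdef]; linarith
  have hB0 : 0 < B := by linarith
  have hBa : g.im + 1 ≤ B := by rw [hBdef]; linarith
  have hBb : 2 / g.im ≤ B := by rw [hBdef]; linarith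
  have hBc : C ≤ B := by rw [hBdef]; linarith
  have hBd : C4 * (4 / θ) ^ 3 ≤ B := by rw [hBdef]; linarith
  have hBe : 1 / θ ≤ B := by rw [hBdef]; linarith
  clear_value B
  set K : ℝ := 4 * B + 2 * (15000000 * B ^ 11) + 1000000 * B ^ 9 with hK
  have hK0 : 0 ≤ K := by positivity
  have hpow : ∀ s : ℝ, 0 < s → Tendsto (fun n => σ n ^ s) atTop (𝓝 0) := by
    intro s hs
    have h1 := (Real.continuousAt_rpow_const 0 s (Or.inr hs.le)).tendsto.comp h.lh.σl
    rw [Real.zero_rpow hs.ne'] at h1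
    exact h1
  have hξl := hpow ξ hξ0
  -- the error bounds
  have herr : ∀ᶠ n in atTop, ∀ q : T d (L n), ‖((z n).im : ℂ) * ∑ x, e q x *
      ((∫ V, ‖u n V x‖ ^ 2 ∂(PL (T d (L n)) (μ n)) : ℝ) : ℂ) - ((z n).im : ℂ) *
      (tt (z n) (σ n) (m n) q / (1 - (τ n : ℂ) ^ 2 * tt (z n) (σ n) (m n) q))‖ ≤
      K * σ n ^ (ξ / 2) := by
    have h3 : Tendsto (fun n => 240000 * B ^ 8 * σ n ^ ξ) atTop (𝓝 0) := by
      have := hξl.const_mul (240000 * B ^ 8)
      rwa [mul_zero] at this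
    have h4 : Tendsto (fun n => C * σ n) atTop (𝓝 0) := by
      have := h.lh.σl.const_mul C
      rwa [mul_zero] at this
    filter_upwards [h3.eventually_le_const (show (0 : ℝ) < 1 by norm_num),
      h4.eventually_le_const (show (0 : ℝ) < 1 by norm_num),
      h.lh.σl.eventually_le_const (show (0 : ℝ) < 1 by norm_num),
      h.lh.xl.eventually_le_const (show (0 : ℝ) < 1 by norm_num),
      hmi.eventually_le_const (show g.im < g.im + 1 by linarith),
      hmi.eventually_const_le (show g.im / 2 < g.im by linarith), h.lh.hq] with n n2 n3 n4 n5 n6 n7 n8 q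
    have hσ := h.lh.σ0 n
    have hz := (h.lh.md n).zim
    have hSp : (σ n ^ (-θ)) = (1 / σ n) ^ θ := by
      rw [Real.rpow_neg hσ.le, one_div, Real.inv_rpow hσ.le]
    have h1σ : 1 ≤ 1 / σ n := by
      rw [le_div_iff₀ hσ]
      linarith
    have hS1 : 1 ≤ σ n ^ (-θ) := by
      rw [hSp]
      exact Real.one_le_rpow h1σ hθ0.le
    have hk1 : 1 ≤ σ n ^ (-κ) := by
      have : (σ n ^ (-κ)) = (1 / σ n) ^ κ := by
        rw [Real.rpow_neg hσ.le, one_div, Real.inv_rpow hσ.le]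
      rw [this]
      exact Real.one_le_rpow h1σ hκ0.le
    have hS0 : 0 < σ n ^ (-θ) := by linarith
    have hlog1 : Real.log (1 / σ n) ≤ 1 / θ * σ n ^ (-θ) := by
      have h5 := Real.log_le_rpow_div (x := 1 / σ n) (by positivity) hθ0
      rw [hSp]
      refine h5.trans (le_of_eq ?_)
      ring
    have hlog2 : Real.log (1 / (z n).im) ≤ 3 * Real.log (1 / σ n) := by
      have h5 : Real.log (σ n ^ (2 + κ)) ≤ Real.log (z n).im :=
        Real.log_le_log (by positivity) (hηκ n)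
      rw [Real.log_rpow hσ] at h5
      rw [one_div, one_div, Real.log_inv, Real.log_inv]
      have h6 : 0 ≤ Real.log (1 / σ n) := Real.log_nonneg h1σ
      rw [one_div, Real.log_inv] at h6
      have h7 : (2 + κ) * -Real.log (σ n) ≤ 3 * -Real.log (σ n) :=
        mul_le_mul_of_nonneg_right (by linarith) h6
      have h8 : (2 + κ) * -Real.log (σ n) = -((2 + κ) * Real.log (σ n)) := by ring
      linarith
    have hlog3 : 0 ≤ 1 + Real.log (1 / (z n).im) := by
      have : (z n).im ≤ 1 := by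
        rw [div_le_iff₀ (by positivity)] at n5
        have : σ n ^ 2 ≤ 1 := pow_le_one₀ hσ.le n4
        linarith
      have : 0 ≤ Real.log (1 / (z n).im) := Real.log_nonneg (by
        rw [le_div_iff₀ hz]
        linarith)
      linarith
    have hε0 : 0 < σ n ^ (ξ / 2) := Real.rpow_pos_of_pos hσ _
    have hbd : ‖((z n).im : ℂ) * ∑ x, e q x *
        ((∫ V, ‖u n V x‖ ^ 2 ∂(PL (T d (L n)) (μ n)) : ℝ) : ℂ) - ((z n).im : ℂ) *
        (tt (z n) (σ n) (m n) q / (1 - (τ n : ℂ) ^ 2 * tt (z n) (σ n) (m n) q))‖ ≤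
        4 * B * σ n ^ (ξ / 2) + (1 + 1 / σ n ^ (ξ / 2)) * (15000000 * B ^ 11 * σ n ^ ξ) +
        1000000 * B ^ 9 * σ n ^ ξ := by
      refine err_bound (h.lh.md n) (μ n) C (τ n) (hh n) (hS n) B (σ n ^ (-κ)) (σ n ^ (-θ)) (σ n ^ ξ)
        hB1 hσ n4
        ?_ ?_ hC0 ?_ ?_ ?_ hk1 hS1 ?_ ?_ n8 ?_ ?_ n2 ?_ q (u n) (hum n) (hue n) (σ n ^ (ξ / 2)) hε0
      · exact n6.trans hBa
      · have h5 : 1 / B ≤ 1 / (2 / g.im) :=
          one_div_le_one_div_of_le hg' hBb
        rw [one_div_div] at h5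
        exact h5.trans n7
      · exact hBc
      · rw [div_le_iff₀ (by positivity), one_mul] at n5
        exact n5
      · have h5 := mul_le_mul_of_nonneg_left (hηκ n) (by positivity : 0 ≤ σ n ^ (-κ))
        rw [← Real.rpow_add hσ] at h5
        have e1 : -κ + (2 + κ) = ((2 : ℕ) : ℝ) := by push_cast; ring
        rw [e1, Real.rpow_natCast] at h5
        exact h5
      · refine (hN4 n).trans ?_
        have h5 : 1 + Real.log (1 / (z n).im) ≤ 4 / θ * σ n ^ (-θ) := by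
          have h6 : 3 * Real.log (1 / σ n) ≤ 3 * (1 / θ * σ n ^ (-θ)) := by linarith
          have h7 : 1 ≤ 1 / θ * σ n ^ (-θ) := by
            have : 1 ≤ 1 / θ := by
              rw [le_div_iff₀ hθ0]
              linarith
            exact one_le_mul_of_one_le_of_one_le this hS1
          calc 1 + Real.log (1 / (z n).im) ≤ 4 * (1 / θ * σ n ^ (-θ)) := by linarith
            _ = _ := by ring
        calc C4 * (1 + Real.log (1 / (z n).im)) ^ 3 ≤ C4 * (4 / θ * σ n ^ (-θ)) ^ 3 := by gcongr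
          _ = C4 * (4 / θ) ^ 3 * (σ n ^ (-θ)) ^ 3 := by ring
          _ ≤ B * (σ n ^ (-θ)) ^ 4 := by
              have h8 : (σ n ^ (-θ)) ^ 3 ≤ (σ n ^ (-θ)) ^ 4 := pow_le_pow_right₀ hS1 (by norm_num)
              gcongr
          _ ≤ B ^ 2 * (σ n ^ (-θ)) ^ 4 := by
              have : B ≤ B ^ 2 := by
                calc B = B ^ 1 := (pow_one B).symm
                  _ ≤ B ^ 2 := pow_le_pow_right₀ hB1 (by norm_num)
              gcongr
          _ = _ := by ring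
      · have h5 := (abs_le.1 (h.lh.τl n)).2
        have h6 : C * σ n ^ 3 ≤ σ n ^ 2 := by
          calc C * σ n ^ 3 = (C * σ n) * σ n ^ 2 := by ring
            _ ≤ 1 * σ n ^ 2 := mul_le_mul_of_nonneg_right n3 (by positivity)
            _ = _ := one_mul _
        linarith
      · have e1 : σ n * (σ n ^ (-κ)) ^ 3 * (σ n ^ (-θ)) ^ 4 = σ n ^ ξ := by
          rw [← Real.rpow_natCast, ← Real.rpow_natCast, ← Real.rpow_mul hσ.le, ← Real.rpow_mul hσ.le]
          nth_rewrite 1 [← Real.rpow_one (σ n)]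
          rw [← Real.rpow_add hσ, ← Real.rpow_add hσ]
          congr 1
          rw [hξ]
          push_cast
          ring
        exact e1.le
      · have e1 : σ n ^ 2 * (σ n ^ (-κ)) ^ 5 * (σ n ^ (-θ)) ^ 7 = σ n ^ (2 - 5 * κ - 7 * θ) := by
          rw [← Real.rpow_natCast, ← Real.rpow_natCast, ← Real.rpow_natCast, ← Real.rpow_mul hσ.le,
            ← Real.rpow_mul hσ.le, ← Real.rpow_add hσ, ← Real.rpow_add hσ]
          congr 1
          push_cast
          ring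
        rw [e1]
        refine Real.rpow_le_rpow_of_exponent_ge hσ n4 ?_
        rw [hξ, hθe]
        linarith
      · exact hlog1.trans (mul_le_mul_of_nonneg_right hBe hS0.le)
    refine hbd.trans ?_
    have hyy : σ n ^ ξ = σ n ^ (ξ / 2) * σ n ^ (ξ / 2) := by
      rw [← Real.rpow_add hσ]
      congr 1
      ring
    have hle1 : σ n ^ (ξ / 2) ≤ 1 := Real.rpow_le_one hσ.le n4 (by linarith)
    set s := σ n ^ (ξ / 2) with hs
    rw [hyy]
    have hss : s * s ≤ s := by nlinarith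
    have e2 : (1 + 1 / s) * (15000000 * B ^ 11 * (s * s)) = 15000000 * B ^ 11 * (s * s + s) := by
      field_simp
    rw [e2, hK]
    have h5 : 15000000 * B ^ 11 * (s * s + s) ≤ 15000000 * B ^ 11 * (2 * s) :=
      mul_le_mul_of_nonneg_left (by linarith) (by positivity)
    have h6 : 1000000 * B ^ 9 * (s * s) ≤ 1000000 * B ^ 9 * s :=
      mul_le_mul_of_nonneg_left hss (by positivity)
    calc 4 * B * s + 15000000 * B ^ 11 * (s * s + s) + 1000000 * B ^ 9 * (s * s) ≤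
        4 * B * s + 15000000 * B ^ 11 * (2 * s) + 1000000 * B ^ 9 * s := by linarith
      _ = _ := by ring
  -- the difference
  have hdiff : Tendsto (fun n => (((z n).im : ℂ) * ∑ x, e (0 : T d (L n)) x *
      ((∫ V, ‖u n V x‖ ^ 2 ∂(PL (T d (L n)) (μ n)) : ℝ) : ℂ) - ((z n).im : ℂ) * ∑ x, e (p n) x *
      ((∫ V, ‖u n V x‖ ^ 2 ∂(PL (T d (L n)) (μ n)) : ℝ) : ℂ)) / ((r n ^ 2 : ℝ) : ℂ) -
      (((z n).im : ℂ) * (tt (z n) (σ n) (m n) (0 : T d (L n)) /
      (1 - (τ n : ℂ) ^ 2 * tt (z n) (σ n) (m n) (0 : T d (L n)))) -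
      ((z n).im : ℂ) * (tt (z n) (σ n) (m n) (p n) /
      (1 - (τ n : ℂ) ^ 2 * tt (z n) (σ n) (m n) (p n)))) / ((r n ^ 2 : ℝ) : ℂ)) atTop
      (𝓝 0) := by
    set Δ : ℝ := ξ / 2 - (κ + 2 * θ) with hΔ
    have hΔ0 : 0 < Δ := by rw [hΔ, hξ, hθe]; linarith
    have h1 : Tendsto (fun n => 2 * K * σ n ^ Δ) atTop (𝓝 0) := by
      have := (hpow Δ hΔ0).const_mul (2 * K)
      rwa [mul_zero] at this
    rw [tendsto_zero_iff_norm_tendsto_zero]
    refine squeeze_zero' (Eventually.of_forall fun _ => norm_nonneg _) ?_ h1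
    filter_upwards [herr] with n hn
    have hσ := h.lh.σ0 n
    have hr0 := h.r0 n
    have hr2 : 0 < r n ^ 2 := by positivity
    rw [div_sub_div_same, norm_div, Complex.norm_real, Real.norm_eq_abs, abs_of_pos hr2,
      div_le_iff₀ hr2]
    have e1 : r n ^ 2 = σ n ^ (κ + 2 * θ) := by
      rw [hr n, ← Real.rpow_natCast, ← Real.rpow_mul hσ.le]
      congr 1
      push_cast
      ring
    have e2 : 2 * K * σ n ^ Δ * r n ^ 2 = 2 * (K * σ n ^ (ξ / 2)) := by
      have e3 : σ n ^ Δ * σ n ^ (κ + 2 * θ) = σ n ^ (ξ / 2) := by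
        rw [← Real.rpow_add hσ]
        congr 1
        rw [hΔ]
        ring
      rw [e1, mul_assoc, e3]
      ring
    rw [e2]
    have k0 := hn (0 : T d (L n))
    have kp := hn (p n)
    have tri : ∀ a b c e' : ℂ, ‖a - b - (c - e')‖ ≤ ‖a - c‖ + ‖b - e'‖ := by
      intro a b c e'
      have : a - b - (c - e') = (a - c) - (b - e') := by ring
      rw [this]
      exact norm_sub_le _ _
    refine (tri _ _ _ _).trans ?_
    linarith
  have := hdiff.add hmain
  rw [zero_add] at this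
  refine this.congr fun n => ?_
  ring

end Pool.Agent.Zk71.DR
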