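import Pool.Agent.Zk71.DR.Drude
import Pool.Agent.Zk11.QD.Gen

/-! The second moment of the averaged squared Green function for general bounded laws. -/

set_option autoImplicit false
set_option linter.unusedSectionVars false

open scoped BigOperators Topology ENNReal
open MeasureTheory Filter

namespace Pool.Agent.Zk71.DR

open Pool.Agent.Zk11.QD

variable {d : ℕ}

/-- **The Drude formula** for general laws. -/
theorem drude_gen (hd : 3 ≤ d) (E1 E2 : ℝ) (hE1 : 0 < E1) (hE2 : E2 < 4 * d) (b v0 : ℝ)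
    (hv0 : 0 < v0) (κ : ℝ) (hκ0 : 0 < κ) (hκ1 : κ < 1 / 5) (ε : ℝ) (hε : 0 < ε) :
    ∃ δ : ℝ, 0 < δ ∧ ∀ (μ : Measure ℝ) [IsProbabilityMeasure μ], (∀ᵐ s ∂μ, |s| ≤ b) →
      ∀ V : ℝ, V = ∫ s, (s - ∫ t, t ∂μ) ^ 2 ∂μ → v0 ≤ V → ∀ E : ℝ, E1 ≤ E → E ≤ E2 →
      ∀ lam η : ℝ, 0 < lam → lam < δ → lam ^ (2 + κ) ≤ η → η ≤ δ * lam ^ 2 →
      ∀ G : (Zd d → ℝ) → Zd d → ℂ,
        (∀ᵐ ω ∂(PZ d μ), IsG lam ω ((E : ℂ) + η * Complex.I) (G ω)) → ∀ j : Fin d,
        Summable (fun y : Zd d => (y j : ℝ) ^ 2 * ∫ ω, ‖G ω y‖ ^ 2 ∂(PZ d μ)) ∧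
        |lam ^ 2 * η ^ 2 * ∑' y : Zd d, (y j : ℝ) ^ 2 * ∫ ω, ‖G ω y‖ ^ 2 ∂(PZ d μ) -
          (h0 d E).im / (2 * (g0 d E).im * V)| ≤ ε := by
  set B : ℝ := |b| + 1 with hB
  have hB1 : 1 ≤ B := by have := abs_nonneg b; linarith
  have hB0 : 0 < B := by linarith
  have hsv0 : 0 < Real.sqrt v0 := Real.sqrt_pos.2 hv0
  set κ' : ℝ := (κ + 1 / 5) / 2 with hκ'
  have hκ'1 : κ' < 1 / 5 := by rw [hκ']; linarith
  have hκκ' : 0 < κ' - κ := by rw [hκ']; linarith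
  have hκ'0 : 0 < κ' := by linarith
  obtain ⟨δ₀, hδ₀, hmain⟩ := drude_norm hd E1 E2 hE1 hE2 (2 * B / Real.sqrt v0) κ' hκ'0 hκ'1
    (ε * v0) (by positivity)
  set δ₁ : ℝ := (2 * B) ^ (-((2 + κ') / (κ' - κ))) with hδ₁
  have hδ₁0 : 0 < δ₁ := by rw [hδ₁]; positivity
  set δ : ℝ := min (min (δ₀ / (2 * B)) (δ₀ * v0)) δ₁ with hδ
  have hδ0 : 0 < δ := lt_min (lt_min (by positivity) (by positivity)) hδ₁0
  have hδa : δ ≤ δ₀ / (2 * B) := (min_le_left _ _).trans (min_le_left _ _)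
  have hδb : δ ≤ δ₀ * v0 := (min_le_left _ _).trans (min_le_right _ _)
  have hδc : δ ≤ δ₁ := min_le_right _ _
  refine ⟨δ, hδ0, ?_⟩
  intro μ _ hμb V hV hVv E hEa hEb lam η hl0 hl1 hη0 hη1 G hG j
  have hμB : ∀ᵐ s ∂μ, |s| ≤ B := hμb.mono fun s hs => hs.trans (by
    have := le_abs_self b
    linarith)
  set a : ℝ := ∫ t, t ∂μ with ha
  have hi1 : Integrable (fun s : ℝ => s) μ :=
    Integrable.of_bound aestronglyMeasurable_id B (hμB.mono fun s hs => hs)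
  have haB : |a| ≤ B := by
    have h1 := norm_integral_le_of_norm_le_const (μ := μ) (f := fun s : ℝ => s) (C := B)
      (hμB.mono fun s hs => hs)
    simpa using h1
  have hsa : ∀ᵐ s ∂μ, |s - a| ≤ 2 * B := hμB.mono fun s hs => by
    have := abs_sub s a
    linarith
  have hi2 : Integrable (fun s : ℝ => (s - a) ^ 2) μ := by
    refine Integrable.of_bound (by fun_prop) ((2 * B) ^ 2) (hsa.mono fun s hs => ?_)
    rw [Real.norm_eq_abs, abs_pow]
    exact pow_le_pow_left₀ (abs_nonneg _) hs 2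
  have hV0 : 0 < V := by linarith
  have hVB : V ≤ (2 * B) ^ 2 := by
    rw [hV]
    have h1 := integral_mono_ae hi2 (integrable_const ((2 * B) ^ 2)) (hsa.mono fun s hs => by
      have h2 : (s - a) ^ 2 = |s - a| ^ 2 := (sq_abs _).symm
      change (s - a) ^ 2 ≤ (2 * B) ^ 2
      rw [h2]
      exact pow_le_pow_left₀ (abs_nonneg _) hs 2)
    simpa using h1
  set v : ℝ := Real.sqrt V with hv
  have hv0' : 0 < v := Real.sqrt_pos.2 hV0
  have hvne : v ≠ 0 := hv0'.ne'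
  have hvsq : v ^ 2 = V := Real.sq_sqrt hV0.le
  have hv1 : Real.sqrt v0 ≤ v := Real.sqrt_le_sqrt hVv
  have hv2 : v ≤ 2 * B := by
    rw [hv, Real.sqrt_le_left (by positivity)]
    exact hVB
  have hmp : IsProbabilityMeasure (μ.map (af v a hvne)) :=
    Measure.isProbabilityMeasure_map (af v a hvne).measurable.aemeasurable
  have hmap := af1_map (d := d) μ v a hvne
  -- the normalized law
  have n1 : ∀ᵐ s ∂(μ.map (af v a hvne)), |s| ≤ 2 * B / Real.sqrt v0 := by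
    rw [(af v a hvne).measurableEmbedding.ae_map_iff]
    refine hsa.mono fun s hs => ?_
    change |(s - a) / v| ≤ _
    rw [abs_div, abs_of_pos hv0']
    exact div_le_div₀ (by positivity) hs hsv0 hv1
  have n2 : ∫ s, s ∂(μ.map (af v a hvne)) = 0 := by
    rw [integral_map_equiv]
    change ∫ s, (s - a) / v ∂μ = 0
    rw [integral_div, integral_sub hi1 (integrable_const _)]
    simp [ha]
  have n3 : ∫ s, s ^ 2 ∂(μ.map (af v a hvne)) = 1 := by
    rw [integral_map_equiv]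
    change ∫ s, ((s - a) / v) ^ 2 ∂μ = 1
    simp only [div_pow]
    rw [integral_div, ← hV, hvsq]
    exact div_self hV0.ne'
  -- the parameters
  have p1 : |(E - lam * a) - E| ≤ δ₀ := by
    have e1 : (E - lam * a) - E = -(lam * a) := by ring
    rw [e1, abs_neg, abs_mul, abs_of_pos hl0]
    have h1 : δ * (2 * B) ≤ δ₀ := by
      rw [le_div_iff₀ (by positivity)] at hδa
      exact hδa
    have h2 : lam * |a| ≤ δ * B := mul_le_mul hl1.le haB (abs_nonneg _) hδ0.le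
    nlinarith
  have p3 : 0 < lam * v := by positivity
  have p4 : lam * v < δ₀ := by
    have h1 : δ * (2 * B) ≤ δ₀ := by
      rw [le_div_iff₀ (by positivity)] at hδa
      exact hδa
    calc lam * v ≤ lam * (2 * B) := mul_le_mul_of_nonneg_left hv2 hl0.le
      _ < δ * (2 * B) := mul_lt_mul_of_pos_right hl1 (by positivity)
      _ ≤ δ₀ := h1
  have p5 : (lam * v) ^ (2 + κ') ≤ η := by
    refine le_trans ?_ hη0
    rw [Real.mul_rpow hl0.le hv0'.le]
    have h1 : v ^ (2 + κ') ≤ (2 * B) ^ (2 + κ') :=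
      Real.rpow_le_rpow hv0'.le hv2 (by linarith)
    have h2 : lam ^ (2 + κ') = lam ^ (2 + κ) * lam ^ (κ' - κ) := by
      rw [← Real.rpow_add hl0]
      congr 1
      ring
    have h3 : lam ^ (κ' - κ) ≤ δ₁ ^ (κ' - κ) :=
      Real.rpow_le_rpow hl0.le (hl1.le.trans hδc) hκκ'.le
    have h4 : δ₁ ^ (κ' - κ) = (2 * B) ^ (-(2 + κ')) := by
      rw [hδ₁, ← Real.rpow_mul (by positivity)]
      congr 1
      field_simp
    rw [h4] at h3
    have h5 : (2 * B) ^ (-(2 + κ')) * (2 * B) ^ (2 + κ') = 1 := by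
      rw [← Real.rpow_add (by positivity)]
      simp
    have h6 : 0 < lam ^ (2 + κ) := Real.rpow_pos_of_pos hl0 _
    rw [h2]
    calc lam ^ (2 + κ) * lam ^ (κ' - κ) * v ^ (2 + κ') ≤
          lam ^ (2 + κ) * (2 * B) ^ (-(2 + κ')) * (2 * B) ^ (2 + κ') := by gcongr
      _ = lam ^ (2 + κ) * ((2 * B) ^ (-(2 + κ')) * (2 * B) ^ (2 + κ')) := by ring
      _ = lam ^ (2 + κ) := by rw [h5, mul_one]
  have p6 : η ≤ δ₀ * (lam * v) ^ 2 := by
    calc η ≤ δ * lam ^ 2 := hη1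
      _ ≤ δ₀ * v0 * lam ^ 2 := mul_le_mul_of_nonneg_right hδb (by positivity)
      _ ≤ δ₀ * V * lam ^ 2 := by gcongr
      _ = _ := by rw [mul_pow, hvsq]; ring
  have hG' : ∀ᵐ ω ∂(PZ d (μ.map (af v a hvne))), IsG (lam * v) ω
      (((E - lam * a : ℝ) : ℂ) + η * Complex.I) (G ((af1 d v a hvne).symm ω)) := by
    rw [← hmap, (af1 d v a hvne).measurableEmbedding.ae_map_iff]
    refine hG.mono fun ω hω => ?_
    rw [MeasurableEquiv.symm_apply_apply]
    have h1 := (isG_af lam v a hvne ω _ _).1 hω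
    have e1 : (((E - lam * a : ℝ) : ℂ) + η * Complex.I) =
        ((E : ℂ) + η * Complex.I) - ((lam * a : ℝ) : ℂ) := by
      push_cast
      ring
    rw [e1]
    exact h1
  have hres := hmain (μ.map (af v a hvne)) n1 n2 n3 E (E - lam * a) hEa hEb p1
    (lam * v) η p3 p4 p5 p6 (fun ω => G ((af1 d v a hvne).symm ω)) hG' j
  have hint : ∀ y, ∫ ω, ‖G ((af1 d v a hvne).symm ω) y‖ ^ 2 ∂(PZ d (μ.map (af v a hvne))) =
      ∫ ω, ‖G ω y‖ ^ 2 ∂(PZ d μ) := by
    intro y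
    rw [← hmap, integral_map_equiv]
    simp only [MeasurableEquiv.symm_apply_apply]
  simp only [hint] at hres
  refine ⟨hres.1, ?_⟩
  have h2 := hres.2
  set S := ∑' y : Zd d, (y j : ℝ) ^ 2 * ∫ ω, ‖G ω y‖ ^ 2 ∂(PZ d μ) with hS
  have hg := g0_pos hd E (by linarith) (by linarith)
  have e1 : lam ^ 2 * η ^ 2 * S - (h0 d E).im / (2 * (g0 d E).im * V) =
      ((lam * v) ^ 2 * η ^ 2 * S - (h0 d E).im / (2 * (g0 d E).im)) / V := by
    rw [mul_pow, hvsq]
    field_simp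
  rw [e1, abs_div, abs_of_pos hV0, div_le_iff₀ hV0]
  refine h2.trans ?_
  gcongr

end Pool.Agent.Zk71.DR
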