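import Pool.Agent.Zk11.QD.Mlim

/-! Differences of ladder sums at small momentum. -/

set_option autoImplicit false
set_option linter.unusedSectionVars false

open scoped BigOperators Topology ENNReal
open MeasureTheory Filter

namespace Pool.Agent.Zk71.DR

open Pool.Agent.Zk11.QD
open Pool.Agent.W788.MFP.Four (T e NN adj adj_neg e_comm e_add_left e_add e_zero e_neg e_neg_left
  e_normSq sum_e NN_pos card_T e_single)

variable {d : ℕ} (L : ℕ → ℕ) [hL : ∀ n, NeZero (L n)] (z : ℕ → ℂ) (σ τ : ℕ → ℝ) (m : ℕ → ℂ)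
  (p : (n : ℕ) → T d (L n)) (g : ℂ) (H0 C : ℝ) (P : Fin d → ℝ) (r : ℕ → ℝ)

/-- the hypotheses for the limit of the differences -/
structure LR : Prop where
  lh : LH L z σ τ m p g H0 C (fun _ => 0)
  r0 : ∀ n, 0 < r n
  rr : Tendsto r atTop (𝓝 0)
  q1 : ∀ j, Tendsto (fun n => si (p n j) ^ 2 / (σ n ^ 2 * (z n).im * r n ^ 2)) atTop (𝓝 (P j ^ 2))
  q2 : Tendsto (fun n => pp (p n) / (σ n ^ 2 * (z n).im * r n ^ 2)) atTop (𝓝 (∑ j, P j ^ 2))

variable {L z σ τ m p g H0 C P r}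

/-- the small remainder -/
theorem LR.el (h : LR L z σ τ m p g H0 C P r) :
    Tendsto (fun n => ((σ n ^ 4 / ((z n).im * r n ^ 2) : ℝ) : ℂ) *
      (tt (z n) (σ n) (m n) (p n) -
      (((m n).im / ss (z n) (σ n) (m n) - 1 / (4 * ss (z n) (σ n) (m n) ^ 3) *
        ∑ i, si (p n i) ^ 2 * Qv d (L n) (z n) (σ n) (m n) i : ℝ) : ℂ))) atTop (𝓝 0) := by
  have hmi : Tendsto (fun n => (m n).im) atTop (𝓝 g.im) :=
    (Complex.continuous_im.tendsto g).comp h.lh.ml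
  have hη0 : Tendsto (fun n => (z n).im) atTop (𝓝 0) := by
    have h1 := h.lh.xl.mul (h.lh.σl.pow 2)
    norm_num at h1
    refine h1.congr fun n => ?_
    have := h.lh.σ0 n
    field_simp
  set W := ∑ j, P j ^ 2 with hW
  have hp2 : Tendsto (fun n => pp (p n) / (σ n ^ 2 * (z n).im)) atTop (𝓝 0) := by
    have := h.lh.p2
    simpa using this
  -- the three bounds
  have b1 : Tendsto (fun n => pp (p n) / (σ n ^ 2 * (z n).im * r n ^ 2) *
      (σ n ^ 2 / ss (z n) (σ n) (m n)) ^ 2 * σ n *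
      Real.sqrt ((m n).im * (σ n ^ 2 / ss (z n) (σ n) (m n)))) atTop (𝓝 0) := by
    have := ((h.q2.mul (h.lh.rl.pow 2)).mul h.lh.σl).mul
      ((Real.continuous_sqrt.tendsto _).comp (hmi.mul h.lh.rl))
    simpa using this
  have b2 : Tendsto (fun n => 10 * d * (pp (p n) / (σ n ^ 2 * (z n).im * r n ^ 2) *
      Real.sqrt (pp (p n) / (σ n ^ 2 * (z n).im)) * (σ n ^ 2 / ss (z n) (σ n) (m n)) ^ 3 *
      (σ n * Real.sqrt (z n).im) * (m n).im)) atTop (𝓝 0) := by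
    have h1 : Tendsto (fun n => σ n * Real.sqrt (z n).im) atTop (𝓝 0) := by
      have := h.lh.σl.mul ((Real.continuous_sqrt.tendsto _).comp hη0)
      simpa using this
    have := ((((h.q2.mul ((Real.continuous_sqrt.tendsto _).comp hp2)).mul (h.lh.rl.pow 3)).mul
      h1).mul hmi).const_mul (10 * (d : ℝ))
    simpa using this
  have b3 : Tendsto (fun n => 30 * (d : ℝ) ^ 3 * (pp (p n) / (σ n ^ 2 * (z n).im * r n ^ 2) *
      Real.sqrt (pp (p n) / (σ n ^ 2 * (z n).im)) * (σ n ^ 2 / ss (z n) (σ n) (m n)) ^ 4 *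
      Real.sqrt ((z n).im / σ n ^ 2) * (m n).im)) atTop (𝓝 0) := by
    have h1 : Tendsto (fun n => Real.sqrt ((z n).im / σ n ^ 2)) atTop (𝓝 0) := by
      have := (Real.continuous_sqrt.tendsto _).comp h.lh.xl
      rw [Real.sqrt_zero] at this
      exact this
    have := ((((h.q2.mul ((Real.continuous_sqrt.tendsto _).comp hp2)).mul (h.lh.rl.pow 4)).mul
      h1).mul hmi).const_mul (30 * (d : ℝ) ^ 3)
    simpa using this
  have hb := (b1.add b2).add b3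
  rw [add_zero, add_zero] at hb
  have hpp : Tendsto (fun n => pp (p n)) atTop (𝓝 0) := by
    have h1 := hp2.mul ((h.lh.σl.pow 2).mul hη0)
    norm_num at h1
    refine h1.congr fun n => ?_
    have := h.lh.σ0 n
    have := (h.lh.md n).zim
    field_simp
  rw [tendsto_zero_iff_norm_tendsto_zero]
  refine squeeze_zero' (Eventually.of_forall fun _ => norm_nonneg _) ?_ hb
  filter_upwards [hpp.eventually_le_const (show (0 : ℝ) < 1 by norm_num)] with n hn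
  have hz := (h.lh.md n).zim
  have hs := ss_pos (h.lh.md n)
  have hσ := h.lh.σ0 n
  have hm := (h.lh.md n).mim
  have hr := h.r0 n
  have hp0 := pp_nonneg (p n)
  have h1 := tt_exp (h.lh.md n) (p n) hn
  rw [norm_mul, Complex.norm_real, Real.norm_eq_abs, abs_of_pos (by positivity)]
  refine (mul_le_mul_of_nonneg_left h1 (by positivity)).trans (le_of_eq ?_)
  set s := ss (z n) (σ n) (m n) with hsdef
  set η := (z n).im with hη
  set mi := (m n).im with hmi'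
  set w := pp (p n) with hw
  have r1 : Real.sqrt (mi * (σ n ^ 2 / s)) = σ n * Real.sqrt (mi / s) := by
    have : mi * (σ n ^ 2 / s) = σ n ^ 2 * (mi / s) := by ring
    rw [this, Real.sqrt_mul (by positivity), Real.sqrt_sq hσ.le]
  have r2 : Real.sqrt (w / (σ n ^ 2 * η)) = Real.sqrt w / (σ n * Real.sqrt η) := by
    rw [Real.sqrt_div hp0, Real.sqrt_mul (by positivity), Real.sqrt_sq hσ.le]
  have r3 : Real.sqrt (η / σ n ^ 2) = Real.sqrt η / σ n := by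
    rw [Real.sqrt_div hz.le, Real.sqrt_sq hσ.le]
  have r4 : Real.sqrt η ^ 2 = η := Real.sq_sqrt hz.le
  have r5 : 0 < Real.sqrt η := Real.sqrt_pos.2 hz
  rw [r1, r2, r3, mul_add, mul_add]
  congr 1
  · congr 1
    · field_simp
    · field_simp
  · have e1 : σ n ^ 4 / (η * r n ^ 2) * (30 * (d : ℝ) ^ 3 * (w * Real.sqrt w) * mi / s ^ 4) =
        30 * (d : ℝ) ^ 3 * (w * Real.sqrt w) * mi / s ^ 4 * σ n ^ 4 /
          (Real.sqrt η ^ 2 * r n ^ 2) := by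
      rw [r4]
      ring
    rw [e1]
    have e2 : w / (σ n ^ 2 * η * r n ^ 2) = w / (σ n ^ 2 * Real.sqrt η ^ 2 * r n ^ 2) := by rw [r4]
    rw [e2]
    field_simp

/-- the difference of the ladder multipliers -/
theorem LR.dt (h : LR L z σ τ m p g H0 C P r) :
    Tendsto (fun n => ((σ n ^ 4 / ((z n).im * r n ^ 2) : ℝ) : ℂ) *
      (tt (z n) (σ n) (m n) (0 : T d (L n)) - tt (z n) (σ n) (m n) (p n))) atTop
      (𝓝 ((1 / 4 * (1 / g.im) ^ 3 * ((∑ j, P j ^ 2) * H0) : ℝ) : ℂ)) := by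
  set W := ∑ j, P j ^ 2 with hW
  have hS : Tendsto (fun n => ∑ j, si (p n j) ^ 2 / (σ n ^ 2 * (z n).im * r n ^ 2) *
      Qv d (L n) (z n) (σ n) (m n) j) atTop (𝓝 (W * H0)) := by
    rw [hW, Finset.sum_mul]
    exact tendsto_finsetSum _ fun j _ => (h.q1 j).mul (h.lh.Ql j)
  have h1 : Tendsto (fun n => 1 / 4 * (σ n ^ 2 / ss (z n) (σ n) (m n)) ^ 3 *
      ∑ j, si (p n j) ^ 2 / (σ n ^ 2 * (z n).im * r n ^ 2) *
      Qv d (L n) (z n) (σ n) (m n) j) atTop (𝓝 (1 / 4 * (1 / g.im) ^ 3 * (W * H0))) :=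
    ((h.lh.rl.pow 3).const_mul _).mul hS
  have h2 : Tendsto (fun n => ((1 / 4 * (σ n ^ 2 / ss (z n) (σ n) (m n)) ^ 3 *
      ∑ j, si (p n j) ^ 2 / (σ n ^ 2 * (z n).im * r n ^ 2) *
      Qv d (L n) (z n) (σ n) (m n) j : ℝ) : ℂ)) atTop
      (𝓝 ((1 / 4 * (1 / g.im) ^ 3 * (W * H0) : ℝ) : ℂ)) :=
    (Complex.continuous_ofReal.tendsto _).comp h1
  have h3 := h2.sub h.el
  rw [sub_zero] at h3
  refine h3.congr fun n => ?_
  have hz := (h.lh.md n).zim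
  have hs := ss_pos (h.lh.md n)
  have hσ := h.lh.σ0 n
  have hr := h.r0 n
  rw [tt_zero (h.lh.md n)]
  have e1 : 1 / 4 * (σ n ^ 2 / ss (z n) (σ n) (m n)) ^ 3 *
      ∑ j, si (p n j) ^ 2 / (σ n ^ 2 * (z n).im * r n ^ 2) *
      Qv d (L n) (z n) (σ n) (m n) j = σ n ^ 4 / ((z n).im * r n ^ 2) *
      (1 / (4 * ss (z n) (σ n) (m n) ^ 3) *
        ∑ i, si (p n i) ^ 2 * Qv d (L n) (z n) (σ n) (m n) i) := by
    have e2 : ∑ j, si (p n j) ^ 2 / (σ n ^ 2 * (z n).im * r n ^ 2) *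
        Qv d (L n) (z n) (σ n) (m n) j =
        1 / (σ n ^ 2 * (z n).im * r n ^ 2) *
          ∑ i, si (p n i) ^ 2 * Qv d (L n) (z n) (σ n) (m n) i := by
      rw [Finset.mul_sum]
      exact Finset.sum_congr rfl fun j _ => by ring
    rw [e2]
    generalize ∑ i, si (p n i) ^ 2 * Qv d (L n) (z n) (σ n) (m n) i = Y
    field_simp
  rw [e1]
  push_cast
  ring

/-- the denominator at momentum zero -/
theorem LR.d0 (h : LR L z σ τ m p g H0 C P r) :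
    Tendsto (fun n => (1 - (τ n : ℂ) ^ 2 * tt (z n) (σ n) (m n) (0 : T d (L n))) *
      ((σ n ^ 2 / (z n).im : ℝ) : ℂ)) atTop (𝓝 ((1 / g.im : ℝ) : ℂ)) := by
  have h1 : Tendsto (fun n => (1 - τ n ^ 2 * ((m n).im / ss (z n) (σ n) (m n))) *
      (ss (z n) (σ n) (m n) / (z n).im) * (σ n ^ 2 / ss (z n) (σ n) (m n))) atTop
      (𝓝 (1 * (1 / g.im))) := h.lh.ul.mul h.lh.rl
  rw [one_mul] at h1
  have h2 := (Complex.continuous_ofReal.tendsto _).comp h1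
  refine h2.congr fun n => ?_
  have hz := (h.lh.md n).zim
  have hs := ss_pos (h.lh.md n)
  rw [tt_zero (h.lh.md n)]
  simp only [Function.comp_apply]
  have e1 : (1 - τ n ^ 2 * ((m n).im / ss (z n) (σ n) (m n))) *
      (ss (z n) (σ n) (m n) / (z n).im) * (σ n ^ 2 / ss (z n) (σ n) (m n)) =
      (1 - τ n ^ 2 * ((m n).im / ss (z n) (σ n) (m n))) * (σ n ^ 2 / (z n).im) := by
    field_simp
  rw [e1]
  push_cast
  ring

/-- the denominator at small momentum -/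
theorem LR.dp (h : LR L z σ τ m p g H0 C P r) :
    Tendsto (fun n => (1 - (τ n : ℂ) ^ 2 * tt (z n) (σ n) (m n) (p n)) *
      ((σ n ^ 2 / (z n).im : ℝ) : ℂ)) atTop (𝓝 ((1 / g.im : ℝ) : ℂ)) := by
  have h1 : Tendsto (fun n => ((τ n ^ 2 / σ n ^ 2 * r n ^ 2 : ℝ) : ℂ)) atTop (𝓝 0) := by
    have h2 : Tendsto (fun n => τ n ^ 2 / σ n ^ 2 * r n ^ 2) atTop (𝓝 (1 * 0 ^ 2)) :=
      h.lh.tl.mul (h.rr.pow 2)
    have h3 := (Complex.continuous_ofReal.tendsto _).comp h2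
    have e0 : (((1 * 0 ^ 2 : ℝ)) : ℂ) = 0 := by norm_num
    rw [e0] at h3
    exact h3
  have h4 := h.d0.add (h1.mul h.dt)
  rw [zero_mul, add_zero] at h4
  refine h4.congr fun n => ?_
  have hz := (h.lh.md n).zim
  have hσ := h.lh.σ0 n
  have hr := h.r0 n
  have e1 : ((τ n ^ 2 / σ n ^ 2 * r n ^ 2 : ℝ) : ℂ) * ((σ n ^ 4 / ((z n).im * r n ^ 2) : ℝ) : ℂ) =
      ((τ n ^ 2 : ℝ) : ℂ) * ((σ n ^ 2 / (z n).im : ℝ) : ℂ) := by
    rw [← Complex.ofReal_mul, ← Complex.ofReal_mul]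
    congr 1
    field_simp
  rw [← mul_assoc, e1]
  push_cast
  ring

theorem alg (a b t η σ r : ℂ) (hη : η ≠ 0) (hσ : σ ≠ 0) (hr : r ≠ 0) (k0 : 1 - t ^ 2 * a ≠ 0)
    (kp : 1 - t ^ 2 * b ≠ 0) : σ ^ 4 / (η * r ^ 2) * (a - b) /
      ((1 - t ^ 2 * a) * (σ ^ 2 / η) * ((1 - t ^ 2 * b) * (σ ^ 2 / η))) =
      (η * (a / (1 - t ^ 2 * a)) - η * (b / (1 - t ^ 2 * b))) / r ^ 2 := by
  have key : a / (1 - t ^ 2 * a) - b / (1 - t ^ 2 * b) =
      (a - b) / ((1 - t ^ 2 * a) * (1 - t ^ 2 * b)) := by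
    rw [div_sub_div _ _ k0 kp]
    congr 1
    ring
  rw [← mul_sub, key]
  generalize 1 - t ^ 2 * a = D0 at *
  generalize 1 - t ^ 2 * b = Dp at *
  field_simp

/-- **the difference of the ladder sums** -/
theorem LR.main (h : LR L z σ τ m p g H0 C P r) :
    Tendsto (fun n => (((z n).im : ℂ) * (tt (z n) (σ n) (m n) (0 : T d (L n)) /
      (1 - (τ n : ℂ) ^ 2 * tt (z n) (σ n) (m n) (0 : T d (L n)))) -
      ((z n).im : ℂ) * (tt (z n) (σ n) (m n) (p n) /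
      (1 - (τ n : ℂ) ^ 2 * tt (z n) (σ n) (m n) (p n)))) / ((r n ^ 2 : ℝ) : ℂ)) atTop
      (𝓝 ((H0 / (4 * g.im) * ∑ j, P j ^ 2 : ℝ) : ℂ)) := by
  have hg := h.lh.gi
  have hgc : ((1 / g.im : ℝ) : ℂ) ≠ 0 := by
    exact_mod_cast (one_div_pos.2 hg).ne'
  have h1 := h.dt.div (h.d0.mul h.dp) (mul_ne_zero hgc hgc)
  have e0 : ((1 / 4 * (1 / g.im) ^ 3 * ((∑ j, P j ^ 2) * H0) : ℝ) : ℂ) /
      (((1 / g.im : ℝ) : ℂ) * ((1 / g.im : ℝ) : ℂ)) =
      ((H0 / (4 * g.im) * ∑ j, P j ^ 2 : ℝ) : ℂ) := by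
    rw [← Complex.ofReal_mul, ← Complex.ofReal_div]
    congr 1
    field_simp
  rw [e0] at h1
  refine (tendsto_congr' ?_).1 h1
  have n0 := h.d0.eventually_ne hgc
  have np := h.dp.eventually_ne hgc
  filter_upwards [n0, np] with n m0 mp
  have hz := (h.lh.md n).zim
  have hσ := h.lh.σ0 n
  have hr := h.r0 n
  have hzc : ((z n).im : ℂ) ≠ 0 := by exact_mod_cast hz.ne'
  have hσc : (σ n : ℂ) ≠ 0 := by exact_mod_cast hσ.ne'
  have hrc : (r n : ℂ) ≠ 0 := by exact_mod_cast hr.ne'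
  have k0 : 1 - (τ n : ℂ) ^ 2 * tt (z n) (σ n) (m n) (0 : T d (L n)) ≠ 0 := left_ne_zero_of_mul m0
  have kp : 1 - (τ n : ℂ) ^ 2 * tt (z n) (σ n) (m n) (p n) ≠ 0 := left_ne_zero_of_mul mp
  simp only [Pi.div_apply]
  push_cast
  exact alg _ _ _ _ _ _ hzc hσc hrc k0 kp

end Pool.Agent.Zk71.DR
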